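import Pool.Agent.W850.Ord.LowDens

/-!
# Ordinary reduction of all varieties with cohomology in a large tensor category

`K₀` is a number field.  The generators: for every `n : ℕ` a finite extension `K n` of `K₀` and finitely
many pure motives `A n i` over `K n` with multiplication by totally real or CM fields, each with its own
finite set `S n i` of bad residue characteristics (over `K n` the `ℓ n`-adic monodromy groups are
connected, for one prime `ℓ n`).  For example, `A n` are the first `n` members of an enumeration of the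
following motives over finite extensions of `K₀`, all considered over a large finite extension `K n`: the
`H¹` of all elliptic curves and all abelian surfaces, the `H²` of all K3 surfaces, and other motives with
multiplications with small Hodge numbers.

Orbit condition: for every `n` there is an element `γ` of the Galois group of `K n` which is `Admissible`
for all `A n i` (the identity will do if the defects are at most two, as in the example).

Let `X` be a smooth projective variety over `K₀` (or the product of finitely many such varieties, or a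
finite set of them), `V i ℓ'` its cohomology groups (`i` in a finite set `ν`) and `H i` their Hodge
slopes.  The `V i` are strictly compatible outside a finite set `T` of residue characteristics, which
depends on `X`.  For almost all places `v₀` the reduction of `X` is good, and it is ordinary in the sense
of Bloch and Kato if and only if for all `i` the Newton polygon of `V i` at `v₀` is the Hodge polygon
(`Ordinary`): the crystalline cohomology of almost all reductions has no torsion.

Hypothesis on `X`: the `V i` are potentially in the tensor category generated by the `A n i`: over `K n`,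
a Tate twist of `V i` is a direct summand of a direct sum of tensor products of pieces of the `A n i`
(`IsSummand`).  Examples: all products of elliptic curves, abelian surfaces and K3 surfaces and all
varieties dominated by them, their Hilbert schemes of points, moduli spaces of sheaves on them, ....

Theorem.
1. If the hypothesis holds for one `n`, the places of `K₀` at which `X` has ordinary reduction have
   positive lower density: at least the proportion of the admissible elements divided by `[K n : K₀]`.
2. There is *one* infinite set `P` of places of `K₀` which works for *all* `X`: if the hypothesis holds for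
   all large `n` then `X` has ordinary reduction at all but finitely many places in `P`.  The lower
   density of `P` is at least `c`, if `c` is at most the proportion of the admissible elements divided by
   `[K n : K₀]`, for every `n`.  (Density one, if all fields `K n` are `K₀` and all elements are admissible.)
-/

set_option autoImplicit false

namespace Pool.Agent.Results.MP_17d720_ag.CommonOrdinaryReduction

open NumberField IsDedekindDomain Polynomial Filter Topology
open Pool.Agent.W401.Cheb Pool.Agent.W528.Ord Pool.Agent.R915.Ord Pool.Agent.W850.Ord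

/-- The `V ℓ'` are strictly compatible: at the places of degree one outside `T` the characteristic
polynomial of the geometric Frobenius element (the inverse of `γ`) is `F v`. -/
def StrictlyCompatible {K₀ : Type} [Field K₀] [NumberField K₀] (T : Finset ℕ) {r : ℕ}
    (V : ∀ (ℓ' : ℕ) [Fact ℓ'.Prime], GK K₀ →* Matrix.GeneralLinearGroup (Fin r) ℚ_[ℓ'])
    (F : HeightOneSpectrum (𝓞 K₀) → Polynomial ℤ) : Prop :=
  ∀ (ℓ' : ℕ) [Fact ℓ'.Prime] (v₀ : HeightOneSpectrum (𝓞 K₀)), MultSystem.IsDeg1 T v₀ →
    Ideal.absNorm v₀.asIdeal ≠ ℓ' → ∀ γ : GK K₀, IsFrob v₀ γ →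
      (V ℓ' γ⁻¹ : Matrix (Fin r) (Fin r) ℚ_[ℓ']).charpoly = (F v₀).map (Int.castRingHom ℚ_[ℓ'])

/-- `v₀` has degree one, and for every prime `ℓ'` different from the residue characteristic `p = N v₀`
and every embedding `τ` of the field of algebraic numbers the Newton polygon of `V ℓ'` at `v₀` has the
slopes `H`. -/
def Ordinary {K₀ : Type} [Field K₀] [NumberField K₀] {r : ℕ}
    (V : ∀ (ℓ' : ℕ) [Fact ℓ'.Prime], GK K₀ →* Matrix.GeneralLinearGroup (Fin r) ℚ_[ℓ'])
    (H : Multiset ℕ) (v₀ : HeightOneSpectrum (𝓞 K₀)) : Prop :=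
  ∃ (p : ℕ) (_ : Fact p.Prime), Ideal.absNorm v₀.asIdeal = p ∧
    ∀ (ℓ' : ℕ) [Fact ℓ'.Prime], p ≠ ℓ' → ∀ γ : GK K₀, IsFrob v₀ γ →
      ∀ τ : algebraicClosure ℚ (PadicAlgCl ℓ') →+* PadicAlgCl p,
        NewtonTau (V ℓ' γ⁻¹ : Matrix (Fin r) (Fin r) ℚ_[ℓ']) τ H

theorem ordinary_of {K₀ : Type} [Field K₀] [NumberField K₀] (T : Finset ℕ) {r : ℕ}
    (V : ∀ (ℓ' : ℕ) [Fact ℓ'.Prime], GK K₀ →* Matrix.GeneralLinearGroup (Fin r) ℚ_[ℓ'])
    (F : HeightOneSpectrum (𝓞 K₀) → Polynomial ℤ) (H : Multiset ℕ) (hV : StrictlyCompatible T V F)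
    (v₀ : HeightOneSpectrum (𝓞 K₀)) (hv : MultSystem.IsDeg1 T v₀)
    (hN : NewtonSlopes (Ideal.absNorm v₀.asIdeal) (F v₀) H) : Ordinary V H v₀ := by
  have hN' := hN
  obtain ⟨hp, -⟩ := hN
  refine ⟨Ideal.absNorm v₀.asIdeal, hp, rfl, ?_⟩
  intro ℓ' _ hne γ hγ τ
  exact newtonTau_of _ τ _ (F v₀) (hV ℓ' v₀ hv hne γ hγ) hN'

theorem result (K₀ : Type) [Field K₀] [NumberField K₀]
    -- the fields of definition and the generators
    (K : ℕ → Type) [∀ n, Field (K n)] [∀ n, NumberField (K n)] [∀ n, Algebra K₀ (K n)]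
    (ℓ : ℕ → ℕ) [∀ n, Fact (ℓ n).Prime] (ι : ℕ → Type) [∀ n, Fintype (ι n)]
    (A : ∀ n, ι n → MotSystem (K n) (ℓ n)) (χ : ∀ n, GK (K n) →* (PadicAlgCl (ℓ n))ˣ)
    (S : ∀ n, ι n → Finset ℕ) (hA : ∀ n i, (A n i).IsMotive (χ n) (S n i))
    -- the orbit condition
    (hγ : ∀ n, ∃ γ : GK (K n), ∀ i, (A n i).Admissible γ)
    (c : ℝ) (hc : ∀ n, c ≤ MotSystem.admProportion (A n) / (Module.finrank K₀ (K n) : ℝ)) :
    ∃ P : Set (HeightOneSpectrum (𝓞 K₀)), P.Infinite ∧ c ≤ lowerDensity (fun v₀ => v₀ ∈ P) ∧
      -- all varieties `X`, with the cohomology groups `V i`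
      ∀ (T : Finset ℕ) (ν : Type) [Finite ν] (r : ν → ℕ)
        (V : ∀ (i : ν) (ℓ' : ℕ) [Fact ℓ'.Prime], GK K₀ →* Matrix.GeneralLinearGroup (Fin (r i)) ℚ_[ℓ'])
        (F : ν → HeightOneSpectrum (𝓞 K₀) → ℤ[X]) (H : ν → Multiset ℕ),
        (∀ i, StrictlyCompatible T (V i) (F i)) →
        -- positive lower density
        (∀ n, (∀ i, IsSummand (A n) T (F i) (H i)) →
          0 < lowerDensity (fun v₀ : HeightOneSpectrum (𝓞 K₀) => ∀ i, Ordinary (V i) (H i) v₀) ∧
          MotSystem.admProportion (A n) / (Module.finrank K₀ (K n) : ℝ) ≤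
            lowerDensity (fun v₀ : HeightOneSpectrum (𝓞 K₀) => ∀ i, Ordinary (V i) (H i) v₀)) ∧
        -- the common set of places
        ((∀ i, ∀ᶠ n in atTop, IsSummand (A n) T (F i) (H i)) →
          {v₀ ∈ P | ¬ ∀ i, Ordinary (V i) (H i) v₀}.Finite) := by
  have hd : ∀ n, (0 : ℝ) < (Module.finrank K₀ (K n) : ℝ) := fun n => by
    have : FiniteDimensional K₀ (K n) := Module.Finite.of_restrictScalars_finite ℚ K₀ (K n)
    exact_mod_cast Module.finrank_pos
  have hpos : ∀ n, 0 < MotSystem.admProportion (A n) / (Module.finrank K₀ (K n) : ℝ) :=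
    fun n => div_pos (MotSystem.admProportion_pos (A n) (hγ n)) (hd n)
  have hlow := fun n => lower_below (K₀ := K₀) (A n) (χ n) (S n) (hA n)
  obtain ⟨P, hinf, hdens, hfin⟩ := diagonal (fun n => Below K₀ (A n) (S n))
    (fun n => lt_of_lt_of_le (hpos n) (hlow n)) c (fun n => (hc n).trans (hlow n))
  -- a good place is ordinary
  have hord : ∀ (T : Finset ℕ) (r : ℕ)
      (V : ∀ (ℓ' : ℕ) [Fact ℓ'.Prime], GK K₀ →* Matrix.GeneralLinearGroup (Fin r) ℚ_[ℓ'])
      (F : HeightOneSpectrum (𝓞 K₀) → ℤ[X]) (H : Multiset ℕ), StrictlyCompatible T V F →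
      ∀ n, IsSummand (A n) T F H → ∀ v₀, Below K₀ (A n) (S n) v₀ → Ideal.absNorm v₀.asIdeal ∉ T →
        Ordinary V H v₀ := by
    rintro T r V F H hV n hF v₀ ⟨v, h0, hg⟩ hT
    have e := under_norm v hg.1 v₀ h0
    refine ordinary_of T V F H hV v₀ ⟨e ▸ hg.1, hT⟩ ?_
    exact newton_of_good' (A n) (χ n) (S n) (hA n) hF v₀ v h0 hg (e ▸ hT)
  refine ⟨P, hinf, hdens, fun T ν _ r V F H hV => ⟨fun n hF => ?_, fun hF => ?_⟩⟩
  · have key : MotSystem.admProportion (A n) / (Module.finrank K₀ (K n) : ℝ) ≤
        lowerDensity (fun v₀ : HeightOneSpectrum (𝓞 K₀) => ∀ i, Ordinary (V i) (H i) v₀) := by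
      refine (hlow n).trans (lowerDensity_le_of_finite _ _ T ?_)
      intro v₀ hv₀ hT i
      exact hord T (r i) (V i) (F i) (H i) (hV i) n (hF i) v₀ hv₀ hT
    exact ⟨lt_of_lt_of_le (hpos n) key, key⟩
  · obtain ⟨n₀, hn₀⟩ := eventually_atTop.mp (eventually_all.mpr hF)
    refine ((hfin n₀).union (finite_norm_mem (K := K₀) T)).subset ?_
    rintro v₀ ⟨hv, hno⟩
    by_contra hcon
    rw [Set.mem_union, not_or] at hcon
    obtain ⟨h1, h2⟩ := hcon
    have h2' : Ideal.absNorm v₀.asIdeal ∉ T := h2
    obtain ⟨n, hn, hb⟩ : ∃ n, n₀ ≤ n ∧ Below K₀ (A n) (S n) v₀ := by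
      by_contra h3
      push Not at h3
      exact h1 ⟨hv, h3⟩
    exact hno fun i => hord T (r i) (V i) (F i) (H i) (hV i) n (hn₀ n hn i) v₀ hb h2'

end Pool.Agent.Results.MP_17d720_ag.CommonOrdinaryReduction
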