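import Pool.Agent.R905.OR.Real

/-!
# Positive density of ordinary primes and smooth affine cubic hypersurfaces

`K` is a number field. For a place `v` of good reduction of the separated `K`-scheme `X` of finite type,
`T.H v X n` is the rigid cohomology with compact supports `H^n_c` of the reduction, with its linear
Frobenius `φ` and its Hodge filtration `F` (from the comparison with the algebraic de Rham cohomology of
`X`), over an algebraically closed extension `E v` of the completion. `X` is ordinary at `v` if the slope
and Hodge filtrations of all these spaces are opposite; for smooth projective `X` and almost all `v`
this is ordinarity in the sense of Bloch and Kato (the Newton and Hodge polygons coincide).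
-/

set_option autoImplicit false

open AlgebraicGeometry Pool.Agent.R904.CU Pool.Agent.R905.WM Pool.Agent.R905.OR

namespace Pool.Agent.Results.MP_17d720_ag.CubicHypersurfaces

/-- Let `S` be a class of schemes such as the smooth projective varieties over the number field `K`. The
following are equivalent:
(1) for every `X` in `S` the places at which `X` is ordinary have positive density;
(2) the same for all separated schemes `X` of finite type over `K`;
(3) the same for all smooth hypersurfaces of degree at most three in affine spaces over `K`. -/
theorem result (K : Type) [Field K] [NumberField K] (E : Place K → Type) [∀ v, Field (E v)]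
    [∀ v, CharZero (E v)] [∀ v, IsAlgClosed (E v)] (val : ∀ v, AddValuation (E v) (WithTop ℝ))
    (T : FilteredCohomology K (Place K) E)
    (hT : T.IsCohomology Filter.cofinite (fun v => (Ideal.absNorm v.asIdeal : E v)) val)
    (S : SchProp K) (hM : Models S) (hJ : T.Joint Filter.cofinite val S) :
    [∀ X f, SepFinType K X f → S X f → PosDensity (T.Ord val X f),
     ∀ X f, SepFinType K X f → PosDensity (T.Ord val X f),
     ∀ (σ : Type) [Fintype σ] (F : MvPolynomial σ K), IsSmoothCubic F →
       PosDensity (T.Ord val _ (hyp F))].TFAE :=
  FilteredCohomology.main_single hT posDensity_largeness hM hJ

end Pool.Agent.Results.MP_17d720_ag.CubicHypersurfaces
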