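import Pool.Agent.R459.Eq14
import Pool.Agent.R486.OR.App

/-!
# Primes of good ordinary reduction for almost all members of families of hyperelliptic curves

Part 1 (modulo `p`). Let `g ≥ 1`. For every prime `p > 2g(2g+1)` and every `a ≠ 0` modulo `p` at most
`((g + 1) p + 4 g² + 4 g + 2) / (8 g + 4)` of the `p` curves `y² = x^(2g+1) + a x^(2g) + ν` of genus `g`
are not ordinary (their Hasse-Witt matrix is singular); so at least `5/6` of them, up to `O(1/p)`, are
ordinary. Proof: the determinant of the Hasse-Witt matrix is a polynomial in `ν`; its leading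
coefficient and its order at `ν = 0` are controlled. The leading coefficient is the determinant of a
matrix of binomial coefficients `binom(m_i, r_i + j)` with `m_i = r_i / (2g+1)` modulo `p`; its rows are
multiples of the values at `g` different points of `g` polynomials of degree at most `g - 1` which are
linearly independent modulo `p`. For a monic `f` of degree `2g+1` and `p ≡ 1` modulo `2g+1`, at most
`(g² (p - 1) + 4 g + 2) / (4 g + 2)` of the curves `y² = f(x) + ν` are not ordinary.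

Part 2. Let `T` be a finite set of pairs `(g, a)`, `g ≥ 1`, `a ≠ 0` integers. For almost all integers
`n` in sparse families given by digits (the rearrangements of `k` digits, palindromes, integers with
independent pairs of mirror digits), and all `x` up to a power of the size of `n`, at least
`(1 - ∑ (g+1)/(8g+4)) π(x) - O(x^(1/2+δ))` of the primes `p ≤ x` are primes of good ordinary reduction
for ALL the curves `y² = x^(2g+1) + a x^(2g) + n`, `(g, a)` in `T`, so for their product; for one curve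
of any genus `1 - (g+1)/(8g+4) ≥ 5/6`, and the proportion is positive for five curves of any genera
and for seven curves of genera at least `4`.

Part 3. The same for `y² = f(x) + n`, `f` an arbitrary monic polynomial with integer coefficients of
degree `2g+1`, and the primes `p ≡ 1` modulo `2g+1`, with `1 - g²/(4g+2)` (`5/14` for `g = 3`, `1/9` for
`g = 4`).

Part 4 (larger sieve with the weights `log p / p`). Let `T` be as in part 2, `s = ∑ (g+1)/(8g+4)`,
`0 < ε < 1` and `τ > s / (1 - ε)²`. For `N` large, all but at most `N ^ τ` of the integers `n` in ANY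
interval of length `N` have `∑ log p / p > ε log ⌊N ^ τ⌋` over the primes `p ≤ N ^ τ` of good ordinary
reduction of all the curves `y² = x^(2g+1) + a x^(2g) + n`, `(g, a)` in `T`. For one curve every
`τ > 1/6` is possible (every `τ > 3/20` in genus at least 2).

Definitions used: `hasseWitt` (`Pool/Agent/R486/OR/Tri.lean`), `GoodOrdinary`
(`Pool/Agent/R486/OR/Model.lean`), `trinomial`, `AllGood` (`Pool/Agent/R486/OR/Fam.lean`), `logCount`
(`Pool/Agent/R486/OR/App.lean`), `Almost` (`Pool/Agent/R459/Eq6.lean`: almost all the members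
`c + κ v` of the three families have the property, up to a proportion of at most `τ`).

Library: helper459 (families given by digits, `Pool/Agent/R459`).
-/

set_option autoImplicit false

namespace Pool.Agent.Results.MP_17d720_ag.HyperellipticFamilies

open Polynomial hiding trinomial
open Finset Pool.Agent.R459.Eq
open Pool.Agent.R486.OR (GoodOrdinary hasseWitt trinomial logCount mean_tri mean_gen good_per card_tri
  card_gen sieve)

open Classical in
/-- the number of the primes `p ≤ x` of good ordinary reduction of all the curves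
`y² = x^(2g+1) + a x^(2g) + n`, `(g, a)` in `T` -/
noncomputable def ordCount (T : Finset (ℕ × ℤ)) (n : ℤ) (x : ℕ) : ℕ :=
  ((range (x + 1)).filter fun p => p.Prime ∧ ∀ z ∈ T, GoodOrdinary z.1 (trinomial z.1 z.2 n) p).card

open Classical in
/-- the number of the primes `p ≤ x`, `p ≡ 1` modulo `2g+1`, of good ordinary reduction of `y² = F(x)` -/
noncomputable def ordCountOne (g : ℕ) (F : ℤ[X]) (x : ℕ) : ℕ :=
  ((range (x + 1)).filter fun p => p % (2 * g + 1) = 1 ∧ GoodOrdinary g F p).card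

/-- the number of the primes `p ≤ x`, `p ≡ 1` modulo `2g+1` -/
def primesOne (g x : ℕ) : ℕ := ((range (x + 1)).filter fun p => p.Prime ∧ p % (2 * g + 1) = 1).card

open Classical in
/-- the system of functions -/
noncomputable def sy (Q : ℕ → ℤ → Prop) (p : ℕ) (n : ℤ) : ℝ := if Q p n then 1 else 0

/-- `Q p n` depends on `n` modulo `p` only -/
def PerQ (Q : ℕ → ℤ → Prop) : Prop := ∀ p : ℕ, p.Prime → ∀ m n : ℤ, (p : ℤ) ∣ m - n → (Q p m ↔ Q p n)

lemma sy_sys (Q : ℕ → ℤ → Prop) (hQ : PerQ Q) : Sysb (sy Q) := by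
  constructor
  · intro p hp m n h
    unfold sy
    have h' := hQ p hp m n h
    by_cases c : Q p m
    · rw [if_pos c, if_pos (h'.1 c)]
    · rw [if_neg c, if_neg fun h'' => c (h'.2 h'')]
  · intro p _ n
    unfold sy
    split_ifs <;> simp

lemma recip (x : ℕ) : ∑ p ∈ pri x, 1 / (p : ℝ) ≤ 1 + Real.log x := by
  have h1 := harmonic_le_one_add_log x
  refine le_trans ?_ h1
  rw [harmonic_eq_sum_Icc]
  push_cast
  have h2 : ∀ p ∈ pri x, 1 / (p : ℝ) = (p : ℝ)⁻¹ := fun p _ => one_div _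
  rw [sum_congr rfl h2]
  apply sum_le_sum_of_subset_of_nonneg
  · intro p hp
    rw [mem_pri] at hp
    rw [mem_Icc]
    exact ⟨hp.2.one_le, hp.1⟩
  · intro p _ _
    positivity

open Classical in
/-- the number of the primes of a class -/
noncomputable def cntS (S : ℕ → Prop) (x : ℕ) : ℕ := ((pri x).filter S).card

open Classical in
/-- the number of the primes with `Q p n` -/
noncomputable def cntQ (Q : ℕ → ℤ → Prop) (n : ℤ) (x : ℕ) : ℕ := ((pri x).filter fun p => Q p n).card

lemma cntS_true (x : ℕ) : cntS (fun _ => True) x = Nat.primeCounting x := by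
  unfold cntS
  rw [filter_true]
  unfold pri Nat.primeCounting Nat.primeCounting'
  rw [Nat.count_eq_card_filter_range]

lemma cntS_one (g x : ℕ) : cntS (fun p => p % (2 * g + 1) = 1) x = primesOne g x := by
  unfold cntS pri primesOne
  apply congrArg Finset.card
  ext p
  simp only [mem_filter, and_assoc]

lemma cntQ_all (T : Finset (ℕ × ℤ)) (n : ℤ) (x : ℕ) :
    cntQ (fun p n => ∀ z ∈ T, GoodOrdinary z.1 (trinomial z.1 z.2 n) p) n x = ordCount T n x := by
  unfold cntQ ordCount pri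
  apply congrArg Finset.card
  ext p
  simp only [mem_filter, and_assoc]

lemma cntQ_one (g : ℕ) (f : ℤ[X]) (n : ℤ) (x : ℕ) :
    cntQ (fun p n => p % (2 * g + 1) = 1 ∧ GoodOrdinary g (f + C n) p) n x =
      ordCountOne g (f + C n) x := by
  unfold cntQ ordCountOne pri
  apply congrArg Finset.card
  ext p
  simp only [mem_filter]
  constructor
  · rintro ⟨⟨h1, -⟩, h2⟩
    exact ⟨h1, h2⟩
  · rintro ⟨h1, h2⟩
    exact ⟨⟨h1, h2.2.1⟩, h2⟩

lemma mean_nonneg (Q : ℕ → ℤ → Prop) (p : ℕ) : 0 ≤ mean p (sy Q p) := by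
  unfold mean
  apply div_nonneg _ (Nat.cast_nonneg _)
  apply sum_nonneg
  intro t _
  unfold sy
  split_ifs <;> norm_num

lemma bound (Q : ℕ → ℤ → Prop) (S : ℕ → Prop) (θ G : ℝ) (hG : 0 ≤ G) (P : ℕ) (hθ : θ ≤ 1)
    (h : ∀ p : ℕ, p.Prime → S p → P < p → θ - G / p ≤ mean p (sy Q p)) (n : ℤ) (x : ℕ)
    (E : ℝ) (hE : |∑ p ∈ pri x, (sy Q p n - mean p (sy Q p))| ≤ E) :
    θ * (cntS S x : ℝ) - E - P - G * (1 + Real.log x) ≤ (cntQ Q n x : ℝ) := by
  classical
  have h1 : ∑ p ∈ pri x, sy Q p n = (cntQ Q n x : ℝ) := by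
    unfold sy cntQ
    rw [← sum_filter, sum_const, nsmul_eq_mul, mul_one]
  rw [sum_sub_distrib, h1] at hE
  have h2 := (abs_le.1 hE).1
  obtain ⟨A, hA⟩ : ∃ A, A = (pri x).filter S := ⟨_, rfl⟩
  have hA' : cntS S x = A.card := by
    unfold cntS
    rw [hA]
  obtain ⟨B, hB⟩ : ∃ B, B = (pri x).filter fun p => S p ∧ P < p := ⟨_, rfl⟩
  rw [hA']
  have h3 : θ * (A.card : ℝ) - P - G * (1 + Real.log x) ≤ ∑ p ∈ pri x, mean p (sy Q p) := by
    have h4 : ∀ p ∈ pri x, (if S p ∧ P < p then θ else 0) - G * (1 / (p : ℝ)) ≤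
        mean p (sy Q p) := by
      intro p hp
      rw [mem_pri] at hp
      have hp0 : (0 : ℝ) < p := by exact_mod_cast hp.2.pos
      split_ifs with c
      · have := h p hp.2 c.1 c.2
        have e : G * (1 / (p : ℝ)) = G / p := by ring
        rw [e]
        exact this
      · have h5 := mean_nonneg Q p
        have h6 : (0 : ℝ) ≤ G * (1 / (p : ℝ)) := by positivity
        linarith
    have h5 := sum_le_sum h4
    rw [sum_sub_distrib, ← mul_sum, ← sum_filter, sum_const, nsmul_eq_mul, ← hB] at h5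
    have h6 : G * ∑ p ∈ pri x, 1 / (p : ℝ) ≤ G * (1 + Real.log x) :=
      mul_le_mul_of_nonneg_left (recip x) hG
    have h7 : θ * (A.card : ℝ) - P ≤ (B.card : ℝ) * θ := by
      have h8 : A.card ≤ B.card + P := by
        have h9 : A ⊆ B ∪ Icc 1 P := by
          intro p hp
          rw [hA, mem_filter, mem_pri] at hp
          rw [mem_union, hB, mem_filter, mem_pri, mem_Icc]
          rcases lt_or_ge P p with c | c
          · exact Or.inl ⟨hp.1, hp.2, c⟩
          · exact Or.inr ⟨hp.1.2.one_le, c⟩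
        have h10 := (card_le_card h9).trans (card_union_le _ _)
        rwa [Nat.card_Icc, Nat.add_sub_cancel] at h10
      have h9 : B.card ≤ A.card := by
        apply card_le_card
        intro p hp
        rw [hB, mem_filter] at hp
        rw [hA, mem_filter]
        exact ⟨hp.1, hp.2.1⟩
      have h8' : (A.card : ℝ) ≤ (B.card : ℝ) + P := by exact_mod_cast h8
      have h9' : (B.card : ℝ) ≤ (A.card : ℝ) := by exact_mod_cast h9
      have hP : (0 : ℝ) ≤ P := Nat.cast_nonneg _
      rcases le_or_gt 0 θ with c | c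
      · nlinarith
      · nlinarith
    linarith
  linarith

/-- the proportion for several curves -/
lemma mean_all (T : Finset (ℕ × ℤ)) (hT : ∀ z ∈ T, 1 ≤ z.1 ∧ z.2 ≠ 0) (p : ℕ) (hp : p.Prime)
    (hP : ∑ z ∈ T, (2 * z.1 * (2 * z.1 + 1) + z.2.natAbs) < p) :
    (1 - ∑ z ∈ T, ((z.1 : ℝ) + 1) / (8 * z.1 + 4)) - (3 * ∑ z ∈ T, (z.1 : ℝ)) / p ≤
      mean p (sy (fun p n => ∀ z ∈ T, GoodOrdinary z.1 (trinomial z.1 z.2 n) p) p) := by
  classical
  have hp0 : (0 : ℝ) < p := by exact_mod_cast hp.pos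
  have h1 : ∀ z ∈ T, 1 - ((z.1 : ℝ) + 1) / (8 * z.1 + 4) - 3 * z.1 / p ≤
      mean p (sy (fun p n => GoodOrdinary z.1 (trinomial z.1 z.2 n) p) p) := by
    intro z hz
    have h2 : 2 * z.1 * (2 * z.1 + 1) + z.2.natAbs < p :=
      lt_of_le_of_lt (single_le_sum (f := fun z : ℕ × ℤ => 2 * z.1 * (2 * z.1 + 1) + z.2.natAbs)
        (fun _ _ => Nat.zero_le _) hz) hP
    have h4 := mean_tri (hT z hz).1 z.2 (hT z hz).2 hp (by omega) (by omega)
    unfold mean sy trinomial
    exact h4
  have h2 : ∀ t : ℤ, 1 - ∑ z ∈ T, (1 - sy (fun p n => GoodOrdinary z.1 (trinomial z.1 z.2 n) p) p t) ≤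
      sy (fun p n => ∀ z ∈ T, GoodOrdinary z.1 (trinomial z.1 z.2 n) p) p t := by
    intro t
    have h3 : ∀ z ∈ T, 0 ≤ 1 - sy (fun p n => GoodOrdinary z.1 (trinomial z.1 z.2 n) p) p t := by
      intro z _
      unfold sy
      split_ifs <;> norm_num
    by_cases c : ∀ z ∈ T, GoodOrdinary z.1 (trinomial z.1 z.2 t) p
    · have h4 := sum_nonneg h3
      have h5 : sy (fun p n => ∀ z ∈ T, GoodOrdinary z.1 (trinomial z.1 z.2 n) p) p t = 1 := by
        unfold sy
        rw [if_pos c]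
      rw [h5]
      linarith
    · have h5 : sy (fun p n => ∀ z ∈ T, GoodOrdinary z.1 (trinomial z.1 z.2 n) p) p t = 0 := by
        unfold sy
        rw [if_neg c]
      rw [h5]
      push Not at c
      obtain ⟨z, hz, hz'⟩ := c
      have h6 := single_le_sum h3 hz
      have h7 : sy (fun p n => GoodOrdinary z.1 (trinomial z.1 z.2 n) p) p t = 0 := by
        unfold sy
        rw [if_neg hz']
      rw [h7] at h6
      linarith
  have h3 : 1 - ∑ z ∈ T, (1 - mean p (sy (fun p n => GoodOrdinary z.1 (trinomial z.1 z.2 n) p) p)) ≤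
      mean p (sy (fun p n => ∀ z ∈ T, GoodOrdinary z.1 (trinomial z.1 z.2 n) p) p) := by
    unfold mean
    rw [le_div_iff₀ hp0]
    have h4 := sum_le_sum fun (t : ℕ) (_ : t ∈ range p) => h2 (t : ℤ)
    refine le_trans (le_of_eq ?_) h4
    have h5 : ∑ t ∈ range p, ∑ z ∈ T,
        (1 - sy (fun p n => GoodOrdinary z.1 (trinomial z.1 z.2 n) p) p (t : ℤ)) =
        ∑ z ∈ T, ∑ t ∈ range p,
        (1 - sy (fun p n => GoodOrdinary z.1 (trinomial z.1 z.2 n) p) p (t : ℤ)) := sum_comm
    have h6 : ∑ t ∈ range p, (1 - ∑ z ∈ T,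
        (1 - sy (fun p n => GoodOrdinary z.1 (trinomial z.1 z.2 n) p) p (t : ℤ))) =
        (p : ℝ) - ∑ z ∈ T, ∑ t ∈ range p,
        (1 - sy (fun p n => GoodOrdinary z.1 (trinomial z.1 z.2 n) p) p (t : ℤ)) := by
      rw [sum_sub_distrib, h5, sum_const, card_range, nsmul_eq_mul, mul_one]
    rw [h6, sub_mul, one_mul, sum_mul]
    congr 1
    refine sum_congr rfl fun z _ => ?_
    rw [sum_sub_distrib, sum_const, card_range, nsmul_eq_mul, mul_one, sub_mul, one_mul,
      div_mul_cancel₀ _ hp0.ne']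
  refine le_trans ?_ h3
  have h4 : ∑ z ∈ T, (1 - mean p (sy (fun p n => GoodOrdinary z.1 (trinomial z.1 z.2 n) p) p)) ≤
      ∑ z ∈ T, (((z.1 : ℝ) + 1) / (8 * z.1 + 4) + 3 * z.1 / p) := by
    refine sum_le_sum fun z hz => ?_
    have := h1 z hz
    linarith
  rw [sum_add_distrib, ← sum_div, ← mul_sum] at h4
  linarith

/-- **Theorem.** (1) For every `g ≥ 1`, every prime `p > 2g(2g+1)` and every `a ≠ 0` modulo `p` the
number of the `ν` modulo `p` for which the Hasse-Witt matrix of `y² = x^(2g+1) + a x^(2g) + ν` is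
singular is at most `((g + 1) p + 4 g² + 4 g + 2) / (8 g + 4)`.

(2), (3) Let `b ≥ 2` and `η > 0`. There is `W` such that for all `κ ≠ 0`, `0 < δ ≤ 1/2` and all
sufficiently large `X` the following holds for all `k ≥ 2` and all `c`, for the families of
integers `c + κ v` with `k` digits described by `Almost`.

(2) Let `T` be a finite set of pairs `(g, a)` of integers `g ≥ 1`, `a ≠ 0`. All the members `n` of the
families, up to a proportion of at most `X ^ (-δ)`, have for ALL `x ≥ X` with `x ^ W ≤ b ^ k`: the number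
of the primes `p ≤ x` of good ordinary reduction of all the curves `y² = x^(2g+1) + a x^(2g) + n`,
`(g, a)` in `T`, is at least
`(1 - ∑ (g+1)/(8g+4)) π(x) - x^(1/2+δ) - ∑ (2g(2g+1) + |a|) - 3 (∑ g) (1 + log x)`.

(3) For every `g ≥ 1` and every monic polynomial `f` of degree `2g+1` all the members `n` of the
families, up to a proportion of at most `X ^ (-δ)`, have for ALL `x ≥ X` with `x ^ W ≤ b ^ k`: the number
of the primes `p ≤ x`, `p ≡ 1` modulo `2g+1`, of good ordinary reduction of `y² = f(x) + n` is at least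
`(1 - g²/(4g+2)) π(x; 2g+1, 1) - x^(1/2+δ) - 3 g (1 + log x)`.

(4) Let `T` be as in (2), `0 < ε < 1` and `∑ (g+1)/(8g+4) < (1 - ε)² τ`. For all sufficiently large `N`
and all `M` at most `N ^ τ` of the integers `n`, `M < n ≤ M + N`, have `∑ log p / p ≤ ε log ⌊N ^ τ⌋` over
the primes `p ≤ N ^ τ` of good ordinary reduction of all the curves `y² = x^(2g+1) + a x^(2g) + n`,
`(g, a)` in `T`. -/
theorem result :
    (∀ g : ℕ, 1 ≤ g → ∀ p : ℕ, p.Prime → 2 * g * (2 * g + 1) < p → ∀ a : ZMod p, a ≠ 0 →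
      (8 * g + 4) * Set.ncard {ν : ZMod p |
        (hasseWitt p g (X ^ (2 * g + 1) + C a * X ^ (2 * g) + C ν)).det = 0} ≤
        (g + 1) * p + 4 * g ^ 2 + 4 * g + 2) ∧
    (∀ (b : ℕ), 2 ≤ b → ∀ (η : ℝ), 0 < η → ∃ W : ℕ, 1 ≤ W ∧ ∀ κ : ℤ, κ ≠ 0 →
      ∀ δ : ℝ, 0 < δ → δ ≤ 1 / 2 → ∃ X₀ : ℕ, ∀ X : ℕ, X₀ ≤ X → ∀ k : ℕ, 2 ≤ k → ∀ c : ℤ,
      (∀ T : Finset (ℕ × ℤ), (∀ z ∈ T, 1 ≤ z.1 ∧ z.2 ≠ 0) →
        Almost b k κ c η ((X : ℝ) ^ (-δ)) (fun n => ∀ x : ℕ, X ≤ x → x ^ W ≤ b ^ k →
        (1 - ∑ z ∈ T, ((z.1 : ℝ) + 1) / (8 * z.1 + 4)) * Nat.primeCounting x -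
          (x : ℝ) ^ (1 / 2 + δ) - (∑ z ∈ T, (2 * z.1 * (2 * z.1 + 1) + z.2.natAbs) : ℕ) -
          (3 * ∑ z ∈ T, (z.1 : ℝ)) * (1 + Real.log x) ≤ (ordCount T n x : ℝ))) ∧
      (∀ g : ℕ, 1 ≤ g → ∀ f : ℤ[X], f.Monic → f.natDegree = 2 * g + 1 →
        Almost b k κ c η ((X : ℝ) ^ (-δ)) (fun n => ∀ x : ℕ, X ≤ x → x ^ W ≤ b ^ k →
        (1 - (g : ℝ) ^ 2 / (4 * g + 2)) * primesOne g x - (x : ℝ) ^ (1 / 2 + δ) -
          3 * g * (1 + Real.log x) ≤ (ordCountOne g (f + C n) x : ℝ)))) ∧
    ∀ T : Finset (ℕ × ℤ), (∀ z ∈ T, 1 ≤ z.1 ∧ z.2 ≠ 0) → ∀ ε τ : ℝ, 0 < ε → ε < 1 →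
      ∑ z ∈ T, ((z.1 : ℝ) + 1) / (8 * z.1 + 4) < (1 - ε) ^ 2 * τ →
      ∃ N₀ : ℕ, ∀ N : ℕ, N₀ ≤ N → ∀ M : ℤ,
        (Set.ncard {n : ℤ | M < n ∧ n ≤ M + N ∧
          logCount T n ⌊(N : ℝ) ^ τ⌋₊ ≤ ε * Real.log ⌊(N : ℝ) ^ τ⌋₊} : ℝ) ≤ (N : ℝ) ^ τ := by
  classical
  refine ⟨?_, ?_, fun T hT ε τ hε hε1 hτ => sieve T hT ε τ hε hε1 hτ⟩
  · intro g hg p hp hpg a ha
    have : Fact p.Prime := ⟨hp⟩
    have h1 := card_tri hg hpg a ha
    have h2 : {ν : ZMod p | (hasseWitt p g (X ^ (2 * g + 1) + C a * X ^ (2 * g) + C ν)).det = 0} =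
        ((univ.filter fun ν : ZMod p =>
          (hasseWitt p g (X ^ (2 * g) * (X + C a) + C ν)).det = 0 : Finset (ZMod p)) : Set (ZMod p)) := by
      ext ν
      have e : (X ^ (2 * g + 1) + C a * X ^ (2 * g) + C ν : (ZMod p)[X]) =
          X ^ (2 * g) * (X + C a) + C ν := by ring
      simp only [Set.mem_ofPred_eq, coe_filter, mem_univ, true_and, e]
    rw [h2, Set.ncard_coe_finset]
    exact h1
  · intro b hb η hη
    obtain ⟨W, hW, H⟩ := real_many b hb η hη
    refine ⟨W, hW, fun κ hκ δ hδ hδ1 => ?_⟩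
    obtain ⟨X₀, J⟩ := H κ hκ δ hδ hδ1
    refine ⟨X₀, fun Y hY k hk c => ⟨?_, ?_⟩⟩
    · intro T hT
      have hper : PerQ fun p n => ∀ z ∈ T, GoodOrdinary z.1 (trinomial z.1 z.2 n) p := by
        intro p _ m n h
        constructor
        · intro h1 z hz
          exact (good_per _ h).1 (h1 z hz)
        · intro h1 z hz
          exact (good_per _ h).2 (h1 z hz)
      have h1 := J Y hY k hk c ({()} : Finset Unit)
        (fun _ => sy (fun p n => ∀ z ∈ T, GoodOrdinary z.1 (trinomial z.1 z.2 n) p))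
        (fun _ _ => sy_sys _ hper)
      rw [card_singleton, Nat.cast_one, one_mul] at h1
      refine h1.mono fun n hn x hx hxW => ?_
      have h2 := hn x hx hxW () (mem_singleton_self _)
      have h3 := bound (fun p n => ∀ z ∈ T, GoodOrdinary z.1 (trinomial z.1 z.2 n) p) (fun _ => True)
        (1 - ∑ z ∈ T, ((z.1 : ℝ) + 1) / (8 * z.1 + 4)) (3 * ∑ z ∈ T, (z.1 : ℝ)) (by positivity)
        (∑ z ∈ T, (2 * z.1 * (2 * z.1 + 1) + z.2.natAbs)) (by
          have : (0 : ℝ) ≤ ∑ z ∈ T, ((z.1 : ℝ) + 1) / (8 * z.1 + 4) :=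
            sum_nonneg fun z _ => by positivity
          linarith) (fun p hp _ hpP => mean_all T hT p hp hpP) n x _ h2
      rw [cntS_true, cntQ_all] at h3
      exact h3
    · intro g hg f hfm hfd
      have hper : PerQ fun p n => p % (2 * g + 1) = 1 ∧ GoodOrdinary g (f + C n) p := by
        intro p _ m n h
        show (p % (2 * g + 1) = 1 ∧ GoodOrdinary g (f + C m) p) ↔
          (p % (2 * g + 1) = 1 ∧ GoodOrdinary g (f + C n) p)
        rw [good_per f h]
      have h1 := J Y hY k hk c ({()} : Finset Unit)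
        (fun _ => sy (fun p n => p % (2 * g + 1) = 1 ∧ GoodOrdinary g (f + C n) p))
        (fun _ _ => sy_sys _ hper)
      rw [card_singleton, Nat.cast_one, one_mul] at h1
      refine h1.mono fun n hn x hx hxW => ?_
      have h2 := hn x hx hxW () (mem_singleton_self _)
      have h3 := bound (fun p n => p % (2 * g + 1) = 1 ∧ GoodOrdinary g (f + C n) p)
        (fun p => p % (2 * g + 1) = 1) (1 - (g : ℝ) ^ 2 / (4 * g + 2)) (3 * g) (by positivity) 0 (by
          have : (0 : ℝ) ≤ (g : ℝ) ^ 2 / (4 * g + 2) := by positivity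
          linarith) (by
          intro p hp hp1 _
          have h4 := mean_gen hg f hfm hfd hp hp1
          unfold mean sy
          simp only [hp1, true_and]
          exact h4) n x _ h2
      rw [cntS_one, cntQ_one] at h3
      simp only [Nat.cast_zero, sub_zero] at h3
      exact h3

end Pool.Agent.Results.MP_17d720_ag.HyperellipticFamilies
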