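import Pool.Agent.R401.Tr13

/-!
# Ordinary reduction: one place suffices for an explicit density over the field itself

Let `K` be a number field, `V` an `ℓ`-adic representation of dimension `n` (a cohomology group of a
smooth projective variety over `K`, or a direct summand which is cut out by cycles), and let
`L_v = det (1 - F_v T | V) ∈ ℤ[T]` be the Frobenius polynomials at the places `v` outside a finite
set. Let `j = 1` or `2`, and let the coefficient of `T ^ j` in `L_v` be `O(N(v) ^ u)`, as it is if
`V` has weight `w` and `j w = 2 u`. Then one of the following holds: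

* at all places the coefficient of `T ^ j` is divisible by `N(v) ^ u`;
* the places `v` of degree one at which the coefficient of `T ^ j` is *not* divisible by
  `N(v) ^ u` have lower density at least `1 / (n choose j) ^ 2`.

In the second case no finite extension of `K` is needed, and the bound depends only on `n`, not on
the size of the group of connected components of the monodromy group. (The known results give
density one after a finite extension of `K` of unknown degree.)

* `j = 1`, `u = 1`: for a K3 surface, or for any smooth projective surface with `h^{2,0} = 1`, and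
  `V = H^2`, or `V` the part of `H^2` orthogonal to the divisor classes over `K`, the reduction at a
  place of degree one is ordinary in degree two if and only if `p` does not divide the trace. So if
  one place has this property then the places of ordinary reduction have lower density at least
  `1 / n ^ 2`, with `n ≤ 22` for K3 surfaces: at least `1 / 441`, over `K` itself. For all surfaces
  the theorem gives the lower density `1 / n ^ 2` for the places where the `p`-rank of
  `H^2(X_v, O)` is positive.
* `j = 2`, `u = 1`: for an abelian variety of dimension `g` and `V = H^1` the coefficient of `T ^ 2`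
  is prime to `p` only if the `p`-rank of the reduction is at least `2`. So the places of degree one
  at which the `p`-rank is at least `2` have lower density at least `1 / (g (2 g - 1)) ^ 2` over `K`
  itself.

Proof. Apply Chebotarev's theorem for closed sets, Burnside's counting argument and the trace form
to `V` or to its second exterior power: if the divisibility holds at enough places then the
normalised traces are constant on the cosets of an open subgroup, all normalised Frobenius
eigenvalues are roots of unity, and the divisibility holds at all places.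
-/

set_option autoImplicit false

namespace Pool.Agent.Results.MP_17d720_ag.OnePlaceSuffices

open NumberField IsDedekindDomain Filter Matrix Polynomial

/-- the absolute Galois group of the field `K`, with the Krull topology -/
abbrev AbsGal (K : Type) [Field K] : Type := Gal(AlgebraicClosure K/K)

/-- `g` is an (arithmetic) Frobenius element at a maximal ideal `Q` of the ring of all algebraic
integers which lies above the finite place `v` of `K`. -/
def IsFrobenius {K : Type} [Field K] [NumberField K] (v : HeightOneSpectrum (𝓞 K))
    (g : AbsGal K) : Prop :=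
  ∃ Q : Ideal (𝓞 (AlgebraicClosure K)), Q.IsMaximal ∧
    Q.comap (algebraMap (𝓞 K) (𝓞 (AlgebraicClosure K))) = v.asIdeal ∧
    ∀ x : 𝓞 (AlgebraicClosure K), g • x - x ^ Ideal.absNorm v.asIdeal ∈ Q

/-- the matrix of `g` -/
noncomputable def mat {K F : Type} [Field K] [Field F] {n : ℕ} (ρ : AbsGal K →* GL (Fin n) F)
    (g : AbsGal K) : Matrix (Fin n) (Fin n) F :=
  (ρ g : GL (Fin n) F)

/-- **One place suffices.** -/
theorem result {K : Type} [Field K] [NumberField K] (ℓ : ℕ) [Fact ℓ.Prime] {n : ℕ}
    (V : AbsGal K →* GL (Fin n) ℚ_[ℓ]) (hV : Continuous V)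
    -- the places of bad reduction and the Frobenius polynomials at the other places
    (B : Set (HeightOneSpectrum (𝓞 K))) (hB : B.Finite) (L : HeightOneSpectrum (𝓞 K) → ℤ[X])
    (hL : ∀ v, v ∉ B → (ℓ : 𝓞 K) ∉ v.asIdeal → ∀ g, IsFrobenius v g →
      (1 - (X : ℚ_[ℓ][X]) • (mat V g⁻¹).map C).det = (L v).map (Int.castRingHom ℚ_[ℓ]))
    -- the coefficient in degree `j` and its size
    (j : ℕ) (hj : j = 1 ∨ j = 2) (u : ℕ) (c : ℝ) (hc : ∀ v, v ∉ B →
      |((L v).coeff j : ℝ)| ≤ c * (Ideal.absNorm v.asIdeal : ℝ) ^ u) :
    (∀ v, v ∉ B → (ℓ : 𝓞 K) ∉ v.asIdeal → (Ideal.absNorm v.asIdeal : ℤ) ^ u ∣ (L v).coeff j) ∨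
      ∀ θ : ℝ, θ < 1 / (n.choose j : ℝ) ^ 2 → ∀ᶠ x : ℕ in atTop, θ * Nat.primeCounting x <
        ({v : HeightOneSpectrum (𝓞 K) | Ideal.absNorm v.asIdeal ≤ x ∧ v ∉ B ∧
          (Ideal.absNorm v.asIdeal).Prime ∧
          ¬ (Ideal.absNorm v.asIdeal : ℤ) ^ u ∣ (L v).coeff j}.ncard : ℝ) := by
  by_cases hall : ∀ v, v ∉ B → (ℓ : 𝓞 K) ∉ v.asIdeal →
      (Ideal.absNorm v.asIdeal : ℤ) ^ u ∣ (L v).coeff j
  · exact Or.inl hall
  right
  push Not at hall
  obtain ⟨v₀, hv₀, hℓ₀, h₀⟩ := hall
  intro θ hθ
  have hθ' : θ * (n.choose j : ℝ) ^ 2 < 1 := by
    rcases Nat.eq_zero_or_pos (n.choose j) with h | h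
    · rw [h, Nat.cast_zero, zero_pow two_ne_zero, mul_zero]
      exact one_pos
    · have h2 : (0 : ℝ) < (n.choose j : ℝ) ^ 2 := by positivity
      exact (lt_div_iff₀ h2).1 hθ
  refine ((Pool.Agent.R401.Tr13.coeffs V hV B hB L hL j hj u c hc v₀ hv₀ hℓ₀ h₀ θ
    hθ').and (Nat.tendsto_primeCounting.eventually_gt_atTop 0)).mono ?_
  rintro N ⟨h1, h3⟩
  have h4 : (0 : ℝ) < (Nat.primeCounting N : ℝ) := by exact_mod_cast h3
  unfold Pool.Agent.W401.Cheb.dens at h1
  rw [lt_div_iff₀ h4] at h1
  exact h1

end Pool.Agent.Results.MP_17d720_ag.OnePlaceSuffices
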